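import Mathlib

/-! Uniqueness of the extension of a card. -/

set_option autoImplicit false

namespace Pool.Agent.H15.LE

open Finset Classical

variable {V : Type} [Fintype V]

/-- the degree -/
noncomputable def dg (G : SimpleGraph V) (x : V) : ℕ := (univ.filter fun z => G.Adj x z).card

/-- the number of common neighbours -/
noncomputable def cg (G : SimpleGraph V) (x y : V) : ℕ := (univ.filter fun z => G.Adj x z ∧ G.Adj y z).card

/-- adjacency as a truth value -/
noncomputable def ad (G : SimpleGraph V) (x y : V) : Bool := decide (G.Adj x y)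

lemma split_v (p : V → Prop) [DecidablePred p] (v : V) : (univ.filter p).card =
    (if p v then 1 else 0) + ((univ.erase v).filter p).card := by
  rw [← insert_erase (mem_univ v), filter_insert]
  by_cases h : p v
  · rw [if_pos h, if_pos h, card_insert_of_notMem (by simp), add_comm]
    simp
  · rw [if_neg h, if_neg h, zero_add]
    simp

section

variable {G K : SimpleGraph V} {v : V} (hag : ∀ x y, x ≠ v → y ≠ v → (K.Adj x y ↔ G.Adj x y))

include hag

lemma dg_off {x : V} (hx : x ≠ v) :
    dg G x + (if K.Adj v x then 1 else 0) = dg K x + (if G.Adj v x then 1 else 0) := by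
  rw [dg, dg, split_v _ v, split_v (fun z => K.Adj x z) v]
  have : (univ.erase v).filter (fun z => G.Adj x z) = (univ.erase v).filter (fun z => K.Adj x z) := by
    apply filter_congr
    intro z hz
    exact (hag x z hx (ne_of_mem_erase hz)).symm
  rw [this, G.adj_comm x v, K.adj_comm x v]
  omega

lemma cg_off {x y : V} (hx : x ≠ v) (hy : y ≠ v) :
    cg G x y + (if K.Adj v x ∧ K.Adj v y then 1 else 0) = cg K x y + (if G.Adj v x ∧ G.Adj v y then 1 else 0) := by
  rw [cg, cg, split_v _ v, split_v (fun z => K.Adj x z ∧ K.Adj y z) v]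
  have : (univ.erase v).filter (fun z => G.Adj x z ∧ G.Adj y z) =
      (univ.erase v).filter (fun z => K.Adj x z ∧ K.Adj y z) := by
    apply filter_congr
    intro z hz
    rw [hag x z hx (ne_of_mem_erase hz), hag y z hy (ne_of_mem_erase hz)]
  rw [this, G.adj_comm x v, K.adj_comm x v, G.adj_comm y v, K.adj_comm y v]
  omega

end

/-- **The extension of a card is unique**, up to automorphisms, if the profiles of the pairs satisfy the conditions. -/
theorem core {G K : SimpleGraph V} {v : V} (hag : ∀ x y, x ≠ v → y ≠ v → (K.Adj x y ↔ G.Adj x y))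
    (hdeg : dg K v = dg G v) (P : Bool → ℕ → ℕ → ℕ → Prop)
    (hG : ∀ x y, x ≠ y → P (ad G x y) (dg G x) (dg G y) (cg G x y))
    (hK : ∀ x y, x ≠ y → P (ad K x y) (dg K x) (dg K y) (cg K x y))
    (hN : ∀ x y, x ≠ y → ∀ d e l, dg G x = d + 1 → dg G y = e + 1 → cg G x y = l + 1 → ¬ P (ad G x y) d e l)
    (hQ : ∀ u, ¬ ∀ a, ∃ d l, P a (d + 1) (dg G u) (l + 1) ∧ P a d (dg G u) l)
    (hR : ∀ u, ¬ ∀ a, ∃ d l, P a (d + 1) (dg G u) l ∧ P a d (dg G u) l) :
    ∃ σ : Equiv.Perm V, ∀ x y, K.Adj (σ x) (σ y) ↔ G.Adj x y := by
  have hne : ∀ {L : SimpleGraph V} {x}, L.Adj v x → x ≠ v := fun h => h.ne'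
  have had : ∀ {x y}, x ≠ v → y ≠ v → ad K x y = ad G x y := by
    intro x y hx hy
    unfold ad
    exact decide_eq_decide.2 (hag x y hx hy)
  set A := univ.filter (fun x => G.Adj v x ∧ ¬ K.Adj v x) with hA
  set B := univ.filter (fun x => K.Adj v x ∧ ¬ G.Adj v x) with hB
  have hAB : A.card = B.card := by
    have h1 : (univ.filter fun z => G.Adj v z).card =
        A.card + (univ.filter fun z => G.Adj v z ∧ K.Adj v z).card := by
      rw [← card_union_of_disjoint]
      · congr 1
        ext z
        simp only [hA, mem_filter, mem_univ, true_and, mem_union]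
        tauto
      · rw [Finset.disjoint_left]
        intro z h2 h3
        simp only [hA, mem_filter, mem_univ, true_and] at h2 h3
        exact h2.2 h3.2
    have h2 : (univ.filter fun z => K.Adj v z).card =
        B.card + (univ.filter fun z => G.Adj v z ∧ K.Adj v z).card := by
      rw [← card_union_of_disjoint]
      · congr 1
        ext z
        simp only [hB, mem_filter, mem_univ, true_and, mem_union]
        tauto
      · rw [Finset.disjoint_left]
        intro z h2 h3
        simp only [hB, mem_filter, mem_univ, true_and] at h2 h3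
        exact h2.2 h3.1
    have h3 : (univ.filter fun z => K.Adj v z).card = (univ.filter fun z => G.Adj v z).card := hdeg
    omega
  have hA1 : A.card ≤ 1 := by
    rw [card_le_one]
    intro x hx y hy
    by_contra hxy
    rw [hA, mem_filter] at hx hy
    have hxv := hne hx.2.1
    have hyv := hne hy.2.1
    have h1 := dg_off hag hxv
    have h2 := dg_off hag hyv
    have h3 := cg_off hag hxv hyv
    rw [if_neg hx.2.2, if_pos hx.2.1] at h1
    rw [if_neg hy.2.2, if_pos hy.2.1] at h2
    rw [if_neg (fun h => hx.2.2 h.1), if_pos ⟨hx.2.1, hy.2.1⟩] at h3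
    have h4 := hK x y hxy
    rw [had hxv hyv] at h4
    exact hN x y hxy _ _ _ h1 h2 h3 h4
  rcases Nat.eq_zero_or_pos A.card with h0 | h0
  · -- no difference
    have hB0 : B.card = 0 := by omega
    rw [card_eq_zero] at h0 hB0
    refine ⟨1, fun x y => ?_⟩
    have hv : ∀ z, K.Adj v z ↔ G.Adj v z := by
      intro z
      have h1 : z ∉ A := by rw [h0]; simp
      have h2 : z ∉ B := by rw [hB0]; simp
      simp only [hA, hB, mem_filter, mem_univ, true_and] at h1 h2
      tauto
    simp only [Equiv.Perm.coe_one, id_eq]
    by_cases hx : x = v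
    · subst hx; exact hv y
    · by_cases hy : y = v
      · subst hy; rw [K.adj_comm, G.adj_comm]; exact hv x
      · exact hag x y hx hy
  · obtain ⟨x, hx⟩ := card_eq_one.1 (le_antisymm hA1 h0)
    obtain ⟨y, hy⟩ := card_eq_one.1 (by omega : B.card = 1)
    have hxA : x ∈ A := by rw [hx]; simp
    have hyB : y ∈ B := by rw [hy]; simp
    have hxA' := (mem_filter.1 hxA).2
    have hyB' := (mem_filter.1 hyB).2
    have hxv := hne hxA'.1
    have hyv := hne hyB'.1
    have hxy : x ≠ y := by
      rintro rfl
      exact hyB'.2 hxA'.1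
    have hrest : ∀ z, z ≠ x → z ≠ y → (K.Adj v z ↔ G.Adj v z) := by
      intro z h1 h2
      have h3 : z ∉ A := by rw [hx, mem_singleton]; exact h1
      have h4 : z ∉ B := by rw [hy, mem_singleton]; exact h2
      simp only [hA, hB, mem_filter, mem_univ, true_and] at h3 h4
      tauto
    -- `x` and `y` are twins of the card
    have htw : ∀ z, z ≠ v → z ≠ x → z ≠ y → (G.Adj x z ↔ G.Adj y z) := by
      intro z hzv hzx hzy
      have d1 := dg_off hag hxv
      have d2 := dg_off hag hyv
      have d3 := dg_off hag hzv
      have c1 := cg_off hag hxv hzv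
      have c2 := cg_off hag hyv hzv
      rw [if_neg hxA'.2, if_pos hxA'.1] at d1
      rw [if_pos hyB'.1, if_neg hyB'.2] at d2
      by_contra hcon
      have hcases : ∀ a : Bool, a = ad G x z ∨ a = ad G y z := by
        intro a
        by_cases h1 : G.Adj x z
        · have h2 : ¬ G.Adj y z := fun h => hcon ⟨fun _ => h, fun _ => h1⟩
          cases a
          · right; unfold ad; rw [decide_eq_false h2]
          · left; unfold ad; rw [decide_eq_true h1]
        · have h2 : G.Adj y z := by
            by_contra h
            exact hcon ⟨fun h3 => absurd h3 h1, fun h3 => absurd h3 h⟩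
          cases a
          · left; unfold ad; rw [decide_eq_false h1]
          · right; unfold ad; rw [decide_eq_true h2]
      have g1 := hG x z hzx.symm
      have g2 := hG y z hzy.symm
      have k1 := hK x z hzx.symm
      have k2 := hK y z hzy.symm
      rw [had hxv hzv] at k1
      rw [had hyv hzv] at k2
      by_cases hvz : G.Adj v z
      · have hvz' := (hrest z hzx hzy).2 hvz
        rw [if_pos hvz, if_pos hvz'] at d3
        rw [if_neg (fun h => hxA'.2 h.1), if_pos ⟨hxA'.1, hvz⟩] at c1
        rw [if_pos ⟨hyB'.1, hvz'⟩, if_neg (fun h => hyB'.2 h.1)] at c2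
        have e3 : dg K z = dg G z := by omega
        have e1 : dg G x = dg K x + 1 := by omega
        have e2 : dg K y = dg G y + 1 := by omega
        have e4 : cg G x z = cg K x z + 1 := by omega
        have e5 : cg K y z = cg G y z + 1 := by omega
        apply hQ z
        intro a
        rcases hcases a with rfl | rfl
        · refine ⟨dg K x, cg K x z, ?_, ?_⟩
          · rw [← e1, ← e4]; exact g1
          · rw [← e3]; exact k1
        · refine ⟨dg G y, cg G y z, ?_, g2⟩
          rw [← e2, ← e5, ← e3]; exact k2
      · have hvz' : ¬ K.Adj v z := fun h => hvz ((hrest z hzx hzy).1 h)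
        rw [if_neg hvz, if_neg hvz'] at d3
        rw [if_neg (fun h => hvz' h.2), if_neg (fun h => hvz h.2)] at c1
        rw [if_neg (fun h => hvz' h.2), if_neg (fun h => hvz h.2)] at c2
        have e3 : dg K z = dg G z := by omega
        have e1 : dg G x = dg K x + 1 := by omega
        have e2 : dg K y = dg G y + 1 := by omega
        have e4 : cg G x z = cg K x z := by omega
        have e5 : cg K y z = cg G y z := by omega
        apply hR z
        intro a
        rcases hcases a with rfl | rfl
        · refine ⟨dg K x, cg K x z, ?_, ?_⟩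
          · rw [← e1, ← e4]; exact g1
          · rw [← e3]; exact k1
        · refine ⟨dg G y, cg G y z, ?_, g2⟩
          rw [← e2, ← e5, ← e3]; exact k2
    refine ⟨Equiv.swap x y, ?_⟩
    have hmain : ∀ a b, a = x ∨ a = y ∨ (a ≠ x ∧ a ≠ y) → b = x ∨ b = y ∨ (b ≠ x ∧ b ≠ y) →
        (K.Adj (Equiv.swap x y a) (Equiv.swap x y b) ↔ G.Adj a b) := by
      have hx' : ∀ b, b ≠ x → b ≠ y → (K.Adj y b ↔ G.Adj x b) := by
        intro b h1 h2
        by_cases hb : b = v
        · subst hb
          exact iff_of_true hyB'.1.symm hxA'.1.symm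
        · rw [hag y b hyv hb, htw b hb h1 h2]
      have hy' : ∀ b, b ≠ x → b ≠ y → (K.Adj x b ↔ G.Adj y b) := by
        intro b h1 h2
        by_cases hb : b = v
        · subst hb
          exact iff_of_false (fun h => hxA'.2 h.symm) (fun h => hyB'.2 h.symm)
        · rw [hag x b hxv hb, htw b hb h1 h2]
      intro a b ha hb
      rcases ha with rfl | rfl | ⟨ha1, ha2⟩
      · rcases hb with rfl | rfl | ⟨hb1, hb2⟩
        · simp
        · rw [Equiv.swap_apply_left, Equiv.swap_apply_right, hag _ _ hyv hxv, G.adj_comm]
        · rw [Equiv.swap_apply_left, Equiv.swap_apply_of_ne_of_ne hb1 hb2]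
          exact hx' b hb1 hb2
      · rcases hb with rfl | rfl | ⟨hb1, hb2⟩
        · rw [Equiv.swap_apply_left, Equiv.swap_apply_right, hag _ _ hxv hyv, G.adj_comm]
        · simp
        · rw [Equiv.swap_apply_right, Equiv.swap_apply_of_ne_of_ne hb1 hb2]
          exact hy' b hb1 hb2
      · rcases hb with rfl | rfl | ⟨hb1, hb2⟩
        · rw [Equiv.swap_apply_left, Equiv.swap_apply_of_ne_of_ne ha1 ha2, K.adj_comm, G.adj_comm]
          exact hx' a ha1 ha2
        · rw [Equiv.swap_apply_right, Equiv.swap_apply_of_ne_of_ne ha1 ha2, K.adj_comm, G.adj_comm]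
          exact hy' a ha1 ha2
        · rw [Equiv.swap_apply_of_ne_of_ne ha1 ha2, Equiv.swap_apply_of_ne_of_ne hb1 hb2]
          by_cases hav : a = v
          · subst hav; exact hrest b hb1 hb2
          · by_cases hbv : b = v
            · subst hbv; rw [K.adj_comm, G.adj_comm]; exact hrest a ha1 ha2
            · exact hag a b hav hbv
    intro a b
    apply hmain
    · tauto
    · tauto

end Pool.Agent.H15.LE
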