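import Pool.Agent.H15.LE.Kelly
import Pool.Agent.H15.LE.Core
import Pool.Graph.R_seed8.TH87.RVC.Graph

/-! Bilinear identities for the numbers of common neighbours are inherited by hypomorphic graphs. -/

set_option autoImplicit false

namespace Pool.Agent.H15.LE

open Finset Classical
open Pool.Agent.H234RC (Hypo)
open Pool.Agent.TH87.RVC (dS dS_eq)

variable {V : Type} [Fintype V]

omit [Fintype V] in
lemma e6l (t : Fin 6 → V) : ![t 0, t 1, t 2, t 3, t 4, t 5] = t := by
  funext i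
  fin_cases i <;> rfl

/-- functions on six points -/
def eq6 (V : Type) : (Fin 6 → V) ≃ V × V × V × V × V × V where
  toFun t := (t 0, t 1, t 2, t 3, t 4, t 5)
  invFun p := ![p.1, p.2.1, p.2.2.1, p.2.2.2.1, p.2.2.2.2.1, p.2.2.2.2.2]
  left_inv t := e6l t
  right_inv p := rfl

lemma sum6 (F : (Fin 6 → V) → ℝ) :
    ∑ t, F t = ∑ x, ∑ y, ∑ a, ∑ b, ∑ c, ∑ d, F ![x, y, a, b, c, d] := by
  rw [Fintype.sum_equiv (eq6 V) F (fun p => F ((eq6 V).symm p)) (fun t => by rw [Equiv.symm_apply_apply])]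
  simp only [Fintype.sum_prod_type]
  rfl

/-- indicator -/
noncomputable def iv (p : Prop) : ℝ := if p then 1 else 0

lemma dg_sum (G : SimpleGraph V) (x : V) : (dg G x : ℝ) = ∑ z, iv (G.Adj x z) := by
  rw [dg, card_filter]
  push_cast
  rfl

lemma cg_sum (G : SimpleGraph V) (x y : V) : (cg G x y : ℝ) = ∑ z, iv (G.Adj x z) * iv (G.Adj y z) := by
  rw [cg, card_filter]
  push_cast
  refine sum_congr rfl fun z _ => ?_
  unfold iv
  by_cases h1 : G.Adj x z <;> by_cases h2 : G.Adj y z <;> simp [h1, h2]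

section

variable (c s z : Bool → ℝ) (n : ℝ)

/-- the bilinear function -/
def bil (a : Bool) (d e : ℝ) : ℝ := c a + s a * (d + e) + z a * (d * e)

/-- the local form of the defect -/
noncomputable def loc {k : ℕ} (A : Fin k → Fin k → Prop) (i j p q : Fin k) : ℝ :=
  iv (A i p) * iv (A j p) / n - (c (decide (A i j)) / n ^ 2 +
    s (decide (A i j)) / n * (iv (A i p) + iv (A j p)) + z (decide (A i j)) * (iv (A i p) * iv (A j q)))

/-- the local form of the square of the defect -/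
noncomputable def sq6 (A E : Fin 6 → Fin 6 → Prop) : ℝ :=
  if E 0 1 then 0 else loc c s z n A 0 1 2 3 * loc c s z n A 0 1 4 5

lemma loc_sum (G : SimpleGraph V) (hV : 0 < Fintype.card V) (x y : V) :
    ∑ p, ∑ q, (iv (G.Adj x p) * iv (G.Adj y p) / (Fintype.card V : ℝ) -
      (c (ad G x y) / (Fintype.card V : ℝ) ^ 2 + s (ad G x y) / (Fintype.card V : ℝ) *
      (iv (G.Adj x p) + iv (G.Adj y p)) + z (ad G x y) * (iv (G.Adj x p) * iv (G.Adj y q)))) =
      cg G x y - bil c s z (ad G x y) (dg G x) (dg G y) := by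
  have hn : (Fintype.card V : ℝ) ≠ 0 := by
    rw [Nat.cast_ne_zero]; omega
  rw [cg_sum, bil, dg_sum, dg_sum]
  simp_rw [sum_sub_distrib, sum_add_distrib, ← mul_sum]
  simp_rw [sum_const, card_univ, nsmul_eq_mul]
  simp_rw [← mul_sum, ← sum_mul, ← sum_div, sum_add_distrib]
  field_simp

/-- the sum of the squares of the defects -/
lemma sq_sum (G : SimpleGraph V) (hV : 0 < Fintype.card V) :
    ∑ t : Fin 6 → V, sq6 c s z (Fintype.card V) (fun i j => G.Adj (t i) (t j)) (fun i j => t i = t j) =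
      ∑ x, ∑ y, if x = y then 0 else ((cg G x y : ℝ) - bil c s z (ad G x y) (dg G x) (dg G y)) ^ 2 := by
  rw [sum6]
  refine sum_congr rfl fun x _ => sum_congr rfl fun y _ => ?_
  have h0 : ∀ a b u w : V, sq6 c s z (Fintype.card V) (fun i j => G.Adj (![x, y, a, b, u, w] i) (![x, y, a, b, u, w] j))
      (fun i j => ![x, y, a, b, u, w] i = ![x, y, a, b, u, w] j) =
      if x = y then 0 else (iv (G.Adj x a) * iv (G.Adj y a) / (Fintype.card V : ℝ) -
      (c (ad G x y) / (Fintype.card V : ℝ) ^ 2 + s (ad G x y) / (Fintype.card V : ℝ) *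
      (iv (G.Adj x a) + iv (G.Adj y a)) + z (ad G x y) * (iv (G.Adj x a) * iv (G.Adj y b)))) *
      (iv (G.Adj x u) * iv (G.Adj y u) / (Fintype.card V : ℝ) -
      (c (ad G x y) / (Fintype.card V : ℝ) ^ 2 + s (ad G x y) / (Fintype.card V : ℝ) *
      (iv (G.Adj x u) + iv (G.Adj y u)) + z (ad G x y) * (iv (G.Adj x u) * iv (G.Adj y w)))) := by
    intro a b u w
    rfl
  simp_rw [h0]
  by_cases hxy : x = y
  · simp [hxy]
  · simp_rw [if_neg hxy]
    simp_rw [← mul_sum, ← sum_mul]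
    rw [loc_sum c s z G hV x y, sq]

end

/-- **Bilinear identities are inherited.** -/
theorem bil_hypo {G H : SimpleGraph V} {π : V → Equiv.Perm V} (hH : Hypo G H π) (h7 : 7 ≤ Fintype.card V)
    (c s z : Bool → ℝ)
    (hG : ∀ x y, x ≠ y → (cg G x y : ℝ) = bil c s z (ad G x y) (dg G x) (dg G y)) :
    ∀ x y, x ≠ y → (cg H x y : ℝ) = bil c s z (ad H x y) (dg H x) (dg H y) := by
  have h1 := kelly hH (k := 6) (by omega) (sq6 c s z (Fintype.card V))
  rw [sq_sum c s z G (by omega), sq_sum c s z H (by omega)] at h1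
  have h2 : ∑ x : V, ∑ y : V, (if x = y then 0 else ((cg G x y : ℝ) - bil c s z (ad G x y) (dg G x) (dg G y)) ^ 2) = 0 := by
    refine sum_eq_zero fun x _ => sum_eq_zero fun y _ => ?_
    by_cases hxy : x = y
    · rw [if_pos hxy]
    · rw [if_neg hxy, hG x y hxy, sub_self]; norm_num
  rw [h2] at h1
  have hnn : ∀ x y : V, 0 ≤ (if x = y then (0 : ℝ) else ((cg H x y : ℝ) - bil c s z (ad H x y) (dg H x) (dg H y)) ^ 2) := by
    intro x y
    split_ifs
    · exact le_rfl
    · positivity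
  have h3 := (sum_eq_zero_iff_of_nonneg (fun x _ => sum_nonneg fun y _ => hnn x y)).1 h1.symm
  intro x y hxy
  have h4 := (sum_eq_zero_iff_of_nonneg (fun y _ => hnn x y)).1 (h3 x (mem_univ x)) y (mem_univ y)
  rw [if_neg hxy] at h4
  have h5 := pow_eq_zero_iff (two_ne_zero) |>.1 h4
  linarith

lemma hypo_deg {G H : SimpleGraph V} {π : V → Equiv.Perm V} (hH : Hypo G H π)
    (h3 : 3 ≤ Fintype.card V) (v : V) : dg G v = dg H v := by
  have := dS_eq hH univ (fun _ _ _ _ => mem_univ _) (by rw [card_univ]; exact h3) v (mem_univ _)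
  exact this

/-- the copy of `H` which agrees with `G` off `v` -/
lemma copy_dg (H : SimpleGraph V) (σ : Equiv.Perm V) (x : V) : dg (H.comap σ) x = dg H (σ x) := by
  rw [dg, dg]
  apply card_bij (fun z _ => σ z)
  · intro z hz
    rw [mem_filter] at hz ⊢
    exact ⟨mem_univ _, hz.2⟩
  · intro a _ b _ h
    exact σ.injective h
  · intro b hb
    rw [mem_filter] at hb
    refine ⟨σ.symm b, ?_, σ.apply_symm_apply b⟩
    rw [mem_filter]
    refine ⟨mem_univ _, ?_⟩
    change H.Adj (σ x) (σ (σ.symm b))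
    rw [σ.apply_symm_apply]
    exact hb.2

lemma copy_cg (H : SimpleGraph V) (σ : Equiv.Perm V) (x y : V) : cg (H.comap σ) x y = cg H (σ x) (σ y) := by
  rw [cg, cg]
  apply card_bij (fun z _ => σ z)
  · intro z hz
    rw [mem_filter] at hz ⊢
    exact ⟨mem_univ _, hz.2⟩
  · intro a _ b _ h
    exact σ.injective h
  · intro b hb
    rw [mem_filter] at hb
    refine ⟨σ.symm b, ?_, σ.apply_symm_apply b⟩
    rw [mem_filter]
    refine ⟨mem_univ _, ?_⟩
    change H.Adj (σ x) (σ (σ.symm b)) ∧ H.Adj (σ y) (σ (σ.symm b))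
    rw [σ.apply_symm_apply]
    exact hb.2

/-- the core for hypomorphic graphs -/
theorem core_hypo {G H : SimpleGraph V} {π : V → Equiv.Perm V} (hH : Hypo G H π) (h3 : 3 ≤ Fintype.card V)
    (P : Bool → ℕ → ℕ → ℕ → Prop)
    (hG : ∀ x y, x ≠ y → P (ad G x y) (dg G x) (dg G y) (cg G x y))
    (hK : ∀ x y, x ≠ y → P (ad H x y) (dg H x) (dg H y) (cg H x y))
    (hN : ∀ x y, x ≠ y → ∀ d e l, dg G x = d + 1 → dg G y = e + 1 → cg G x y = l + 1 → ¬ P (ad G x y) d e l)
    (hQ : ∀ u, ¬ ∀ a, ∃ d l, P a (d + 1) (dg G u) (l + 1) ∧ P a d (dg G u) l)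
    (hR : ∀ u, ¬ ∀ a, ∃ d l, P a (d + 1) (dg G u) l ∧ P a d (dg G u) l) :
    ∃ σ : Equiv.Perm V, ∀ x y, H.Adj (σ x) (σ y) ↔ G.Adj x y := by
  obtain ⟨v⟩ : Nonempty V := Fintype.card_pos_iff.1 (by omega)
  obtain ⟨σ, hσ⟩ := core (G := G) (K := H.comap (π v)) (v := v) (fun x y hx hy => hH.adj v x y hx hy)
    (by rw [copy_dg, hH.fix]; exact (hypo_deg hH h3 v).symm) P hG
    (fun x y hxy => by
      rw [copy_dg, copy_dg, copy_cg]
      exact hK _ _ (fun h => hxy ((π v).injective h))) hN hQ hR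
  exact ⟨σ.trans (π v), fun x y => hσ x y⟩

end Pool.Agent.H15.LE
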