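import Pool.Agent.H15.LE.Bilin
import Pool.Graph.R_pool_sql_team_seeded_2aa45f1a.Q295.VP.Main

/-! The profiles of pairs are inherited by hypomorphic graphs with many vertices. -/

set_option autoImplicit false

namespace Pool.Agent.H15.LE

open Finset Classical
open Pool.Agent.H234RC (Hypo)
open Pool.Agent.Q295.VP

variable {V : Type} [Fintype V]

lemma prof_sum (G : SimpleGraph V) (a : Fin 2 → V) (P : Set (Fin 2) → Prop) :
    ((Out a).filter (fun y => P (ty G a y))).card = ∑ T ∈ univ.filter P, prof G a T := by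
  rw [card_eq_sum_card_fiberwise (f := fun y => ty G a y) (t := univ.filter P)]
  · refine sum_congr rfl fun T hT => ?_
    rw [mem_filter] at hT
    unfold prof
    congr 1
    ext y
    simp only [mem_filter]
    constructor
    · rintro ⟨⟨h1, h2⟩, h3⟩
      exact ⟨h1, h3⟩
    · rintro ⟨h1, h2⟩
      exact ⟨⟨h1, by rw [h2]; exact hT.2⟩, h2⟩
  · intro y hy
    have hy' := Finset.mem_filter.1 (Finset.mem_coe.1 hy)
    exact Finset.mem_coe.2 (mem_filter.2 ⟨mem_univ _, hy'.2⟩)

lemma mem_f (G : SimpleGraph V) (a : Fin 2 → V) (i : Fin 2) (y : V) :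
    y ∈ (Out a).filter (fun y => i ∈ ty G a y) ↔ (∀ j, a j ≠ y) ∧ G.Adj y (a i) := by
  rw [mem_filter, mem_Out]
  exact Iff.rfl

lemma mem_g (G : SimpleGraph V) (a : Fin 2 → V) (y : V) :
    y ∈ (Out a).filter (fun y => (0 : Fin 2) ∈ ty G a y ∧ (1 : Fin 2) ∈ ty G a y) ↔
      (∀ j, a j ≠ y) ∧ G.Adj y (a 0) ∧ G.Adj y (a 1) := by
  rw [mem_filter, mem_Out]
  exact Iff.rfl

lemma dg_prof (G : SimpleGraph V) (a : Fin 2 → V) :
    dg G (a 0) = ((Out a).filter (fun y => (0 : Fin 2) ∈ ty G a y)).card + (if G.Adj (a 0) (a 1) then 1 else 0) := by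
  rw [dg]
  by_cases h : G.Adj (a 0) (a 1)
  · rw [if_pos h]
    have : univ.filter (fun z => G.Adj (a 0) z) = insert (a 1) ((Out a).filter (fun y => (0 : Fin 2) ∈ ty G a y)) := by
      ext y
      rw [mem_insert, mem_f, mem_filter]
      simp only [mem_univ, true_and]
      constructor
      · intro hy
        by_cases h1 : y = a 1
        · exact Or.inl h1
        · refine Or.inr ⟨fun i => ?_, hy.symm⟩
          fin_cases i
          · exact hy.ne
          · exact fun e => h1 e.symm
      · rintro (rfl | ⟨-, hy⟩)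
        · exact h
        · exact hy.symm
    rw [this, card_insert_of_notMem]
    rw [mem_filter, mem_Out]
    exact fun h1 => h1.1 1 rfl
  · rw [if_neg h, add_zero]
    congr 1
    ext y
    rw [mem_f, mem_filter]
    simp only [mem_univ, true_and]
    constructor
    · intro hy
      refine ⟨fun i => ?_, hy.symm⟩
      fin_cases i
      · exact hy.ne
      · intro e
        apply h
        change a 1 = y at e
        rw [e]
        exact hy
    · rintro ⟨-, hy⟩
      exact hy.symm

lemma dg_prof' (G : SimpleGraph V) (a : Fin 2 → V) :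
    dg G (a 1) = ((Out a).filter (fun y => (1 : Fin 2) ∈ ty G a y)).card + (if G.Adj (a 0) (a 1) then 1 else 0) := by
  rw [dg]
  by_cases h : G.Adj (a 0) (a 1)
  · rw [if_pos h]
    have : univ.filter (fun z => G.Adj (a 1) z) = insert (a 0) ((Out a).filter (fun y => (1 : Fin 2) ∈ ty G a y)) := by
      ext y
      rw [mem_insert, mem_f, mem_filter]
      simp only [mem_univ, true_and]
      constructor
      · intro hy
        by_cases h1 : y = a 0
        · exact Or.inl h1
        · refine Or.inr ⟨fun i => ?_, hy.symm⟩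
          fin_cases i
          · exact fun e => h1 e.symm
          · exact hy.ne
      · rintro (rfl | ⟨-, hy⟩)
        · exact h.symm
        · exact hy.symm
    rw [this, card_insert_of_notMem]
    rw [mem_filter, mem_Out]
    exact fun h1 => h1.1 0 rfl
  · rw [if_neg h, add_zero]
    congr 1
    ext y
    rw [mem_f, mem_filter]
    simp only [mem_univ, true_and]
    constructor
    · intro hy
      refine ⟨fun i => ?_, hy.symm⟩
      fin_cases i
      · intro e
        apply h
        change a 0 = y at e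
        rw [e]
        exact hy.symm
      · exact hy.ne
    · rintro ⟨-, hy⟩
      exact hy.symm

lemma cg_prof (G : SimpleGraph V) (a : Fin 2 → V) :
    cg G (a 0) (a 1) = ((Out a).filter (fun y => (0 : Fin 2) ∈ ty G a y ∧ (1 : Fin 2) ∈ ty G a y)).card := by
  rw [cg]
  congr 1
  ext y
  rw [mem_g, mem_filter]
  simp only [mem_univ, true_and]
  constructor
  · rintro ⟨h0, h1⟩
    refine ⟨fun i => ?_, h0.symm, h1.symm⟩
    fin_cases i
    · exact h0.ne
    · exact h1.ne
  · rintro ⟨-, h0, h1⟩
    exact ⟨h0.symm, h1.symm⟩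

/-- the profiles of pairs -/
def HasProf (G : SimpleGraph V) (a : Bool) (d e l : ℕ) : Prop :=
  ∃ x y, x ≠ y ∧ ad G x y = a ∧ dg G x = d ∧ dg G y = e ∧ cg G x y = l

theorem prof_hypo {G H : SimpleGraph V} {π : V → Equiv.Perm V} (hH : Hypo G H π)
    (hV : 0 < Fintype.card V)
    (hn : 2 * 6 ^ (2 ^ 2) * Real.log (2 * (Fintype.card V : ℝ) ^ 2) <
      ((Fintype.card V - 2 : ℕ) : ℝ) * Real.log (4 / 3)) (x y : V) (hxy : x ≠ y) :
    HasProf G (ad H x y) (dg H x) (dg H y) (cg H x y) := by
  set b : Fin 2 → V := ![x, y] with hb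
  have h1 := cnt_eq hH (fun i j => H.Adj (b i) (b j)) (fun T => prof H b T) hV hn
  have hbinj : Function.Injective b := by
    intro i j hij
    fin_cases i <;> fin_cases j
    · rfl
    · exact absurd hij hxy
    · exact absurd hij.symm hxy
    · rfl
  have h2 : 0 < cnt H (fun i j => H.Adj (b i) (b j)) (fun T => prof H b T) := by
    unfold cnt
    rw [card_pos]
    exact ⟨b, mem_filter.2 ⟨mem_Tup.2 ⟨hbinj, fun i j => Iff.rfl⟩, fun T => rfl⟩⟩
  rw [← h1] at h2
  unfold cnt at h2
  obtain ⟨a, ha⟩ := card_pos.1 h2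
  rw [mem_filter, mem_Tup] at ha
  obtain ⟨⟨ha1, ha2⟩, ha3⟩ := ha
  have hne : a 0 ≠ a 1 := fun h => by
    have := ha1 h
    simp at this
  have hadj : G.Adj (a 0) (a 1) ↔ H.Adj (b 0) (b 1) := ha2 0 1
  have hP : ∀ P : Set (Fin 2) → Prop, ((Out a).filter (fun z => P (ty G a z))).card =
      ((Out b).filter (fun z => P (ty H b z))).card := by
    intro P
    rw [prof_sum, prof_sum]
    exact sum_congr rfl fun T _ => ha3 T
  refine ⟨a 0, a 1, hne, ?_, ?_, ?_, ?_⟩
  · unfold ad
    exact decide_eq_decide.2 hadj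
  · have e1 := dg_prof H b
    change dg H x = _ at e1
    rw [dg_prof G a, e1, hP (fun T => (0 : Fin 2) ∈ T)]
    simp only [hadj]
  · have e1 := dg_prof' H b
    change dg H y = _ at e1
    rw [dg_prof' G a, e1, hP (fun T => (1 : Fin 2) ∈ T)]
    simp only [hadj]
  · have e1 := cg_prof H b
    change cg H x y = _ at e1
    rw [cg_prof G a, e1]
    convert hP (fun T => (0 : Fin 2) ∈ T ∧ (1 : Fin 2) ∈ T)

end Pool.Agent.H15.LE
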