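import Pool.Agent.H15.LE.Lap
import Pool.Agent.H15.LE.Prof
import Pool.Graph.R_seed8.TH87.RVP.Fin

/-! The three theorems. -/

set_option autoImplicit false

namespace Pool.Agent.H15.LE

open Finset Classical
open Pool.Agent.H234RC (Hypo NonIso Reconstructible)
open Pool.Agent.TH87.RVE (rec_of)

variable {V : Type} [Fintype V]

/-- the criterion in terms of profiles, for many vertices -/
theorem prof_thm : ∃ n₀ : ℕ, ∀ (V : Type) [Fintype V] (G : SimpleGraph V), n₀ ≤ Fintype.card V →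
    (∀ a d e l, HasProf G a (d + 1) (e + 1) (l + 1) → ¬ HasProf G a d e l) →
    (∀ e, ¬ ∀ a, ∃ d l, HasProf G a (d + 1) e (l + 1) ∧ HasProf G a d e l) →
    (∀ e, ¬ ∀ a, ∃ d l, HasProf G a (d + 1) e l ∧ HasProf G a d e l) →
    Reconstructible G ∧ Reconstructible Gᶜ := by
  have hlim : Filter.Tendsto (fun n : ℕ => (2 * 6 ^ (2 ^ 2) * Real.log (2 * (n : ℝ) ^ 2) + 2 * Real.log (4 / 3)) / (n : ℝ))
      Filter.atTop (nhds 0) := by
    have h1 : Filter.Tendsto (fun x : ℝ => Real.log x / x) Filter.atTop (nhds 0) := by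
      have := Real.isLittleO_log_id_atTop.tendsto_div_nhds_zero
      exact this
    have h2 : Filter.Tendsto (fun n : ℕ => Real.log (n : ℝ) / (n : ℝ)) Filter.atTop (nhds 0) :=
      h1.comp tendsto_natCast_atTop_atTop
    have h3 : Filter.Tendsto (fun n : ℕ => (1 : ℝ) / (n : ℝ)) Filter.atTop (nhds 0) :=
      tendsto_one_div_atTop_nhds_zero_nat
    have h4 : Filter.Tendsto (fun n : ℕ => (2 * 6 ^ (2 ^ 2) * Real.log 2 + 2 * Real.log (4 / 3)) * ((1 : ℝ) / (n : ℝ)) +
        (4 * 6 ^ (2 ^ 2)) * (Real.log (n : ℝ) / (n : ℝ))) Filter.atTop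
        (nhds ((2 * 6 ^ (2 ^ 2) * Real.log 2 + 2 * Real.log (4 / 3)) * 0 + (4 * 6 ^ (2 ^ 2)) * 0)) :=
      (h3.const_mul _).add (h2.const_mul _)
    rw [mul_zero, mul_zero, add_zero] at h4
    refine h4.congr' ?_
    filter_upwards [Filter.eventually_ge_atTop 1] with n hn
    have hn' : (n : ℝ) ≠ 0 := by
      rw [Nat.cast_ne_zero]; omega
    rw [Real.log_mul (by norm_num) (pow_ne_zero _ hn'), Real.log_pow]
    push_cast
    field_simp
    ring
  have hlog : (0 : ℝ) < Real.log (4 / 3) := Real.log_pos (by norm_num)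
  have hev := (hlim.eventually (gt_mem_nhds hlog)).and (Filter.eventually_ge_atTop 3)
  obtain ⟨n₀, hn₀⟩ := Filter.eventually_atTop.1 hev
  refine ⟨n₀, fun V _ G hV hN hQ hR => ?_⟩
  obtain ⟨h1, h3⟩ := hn₀ _ hV
  have hn : 2 * 6 ^ (2 ^ 2) * Real.log (2 * (Fintype.card V : ℝ) ^ 2) <
      ((Fintype.card V - 2 : ℕ) : ℝ) * Real.log (4 / 3) := by
    have hpos : (0 : ℝ) < Fintype.card V := by
      have : 0 < Fintype.card V := by omega
      exact_mod_cast this
    rw [div_lt_iff₀ hpos] at h1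
    rw [Nat.cast_sub (by omega)]
    push_cast
    linarith
  refine rec_of G True (fun H π hH hNI _ => hNI ?_) trivial
  refine core_hypo hH h3 (HasProf G) (fun x y hxy => ⟨x, y, hxy, rfl, rfl, rfl, rfl⟩)
    (fun x y hxy => prof_hypo hH (by omega) hn x y hxy) ?_ (fun u => hQ _) (fun u => hR _)
  intro x y hxy d e l h1 h2 h3 h4
  exact hN _ d e l ⟨x, y, hxy, rfl, h1, h2, h3⟩ h4

/-- the bilinear case -/
theorem bil_thm (G : SimpleGraph V) (h7 : 7 ≤ Fintype.card V) (c s z : Bool → ℝ)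
    (hG : ∀ x y, x ≠ y → (cg G x y : ℝ) = bil c s z (ad G x y) (dg G x) (dg G y))
    (hN : ∀ x y, x ≠ y → 2 * s (ad G x y) + z (ad G x y) * ((dg G x : ℝ) + dg G y - 1) ≠ 1)
    (hQ : ∀ u, ¬ ∀ a, s a + z a * dg G u = 1) (hR : ∀ u, ¬ ∀ a, s a + z a * dg G u = 0) :
    Reconstructible G ∧ Reconstructible Gᶜ := by
  refine rec_of G True (fun H π hH hNI _ => hNI ?_) trivial
  refine core_hypo hH (by omega) (fun a d e l => (l : ℝ) = bil c s z a d e) hG (bil_hypo hH h7 c s z hG) ?_ ?_ ?_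
  · intro x y hxy d e l h1 h2 h3 h4
    apply hN x y hxy
    have h5 := hG x y hxy
    rw [h1, h2, h3] at h5
    rw [h1, h2]
    unfold bil at h4 h5
    push_cast at h5 ⊢
    linarith
  · intro u h
    apply hQ u
    intro a
    obtain ⟨d, l, h1, h2⟩ := h a
    unfold bil at h1 h2
    push_cast at h1
    linarith
  · intro u h
    apply hR u
    intro a
    obtain ⟨d, l, h1, h2⟩ := h a
    unfold bil at h1 h2
    push_cast at h1
    linarith

/-- graphs with at most three Laplacian eigenvalues -/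
theorem lap_thm (G : SimpleGraph V) (h7 : 7 ≤ Fintype.card V) (h3 : (spectrum ℝ (G.lapMatrix ℝ)).ncard ≤ 3) :
    Reconstructible G ∧ Reconstructible Gᶜ := by
  by_cases hc : G.Connected
  · obtain ⟨s, c, h⟩ := lap_bil G hc h3
    refine bil_thm G h7 _ _ _ h ?_ ?_ ?_
    · intro x y _
      cases ad G x y <;> norm_num
    · intro u h1
      have := h1 false
      norm_num at this
    · intro u h1
      have := h1 true
      norm_num at this
  · refine rec_of G True (fun H π hH hNI _ => hNI ?_) trivial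
    have hne : Nonempty V := Fintype.card_pos_iff.1 (by omega)
    have hp : ¬ G.Preconnected := fun hp => hc ⟨hp⟩
    unfold SimpleGraph.Preconnected at hp
    push Not at hp
    obtain ⟨a, b, hab⟩ := hp
    refine Pool.Agent.TH87.RVP.disc_iso hH (by omega) (univ.filter fun x => G.Reachable a x)
      ⟨a, mem_filter.2 ⟨mem_univ _, SimpleGraph.Reachable.refl a⟩⟩ ⟨b, fun h => hab (mem_filter.1 h).2⟩ ?_
    intro x hx y hy hxy
    exact hy (mem_filter.2 ⟨mem_univ _, (mem_filter.1 hx).2.trans hxy.reachable⟩)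

end Pool.Agent.H15.LE
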