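import Pool.Graph.R_seed8.H234RC.T1

/-! Kelly's lemma for functions of few vertices. -/

set_option autoImplicit false

namespace Pool.Agent.H15.LE

open Finset Classical
open Pool.Agent.H234RC (Hypo)

variable {V : Type} [Fintype V]

/-- the number of the classes of the equality pattern -/
noncomputable def cls {k : ℕ} (E : Fin k → Fin k → Prop) : ℕ :=
  (univ.filter fun i => ∀ j, j < i → ¬ E i j).card

lemma cls_le {k : ℕ} (E : Fin k → Fin k → Prop) : cls E ≤ k := by
  have := card_filter_le (univ : Finset (Fin k)) (fun i => ∀ j, j < i → ¬ E i j)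
  rw [card_univ, Fintype.card_fin] at this
  exact this

omit [Fintype V] in
lemma cls_eq {k : ℕ} (t : Fin k → V) : cls (fun i j => t i = t j) = (univ.image t).card := by
  rw [cls]
  apply card_bij (fun i _ => t i)
  · intro i _
    exact mem_image_of_mem t (mem_univ i)
  · intro i hi j hj h
    rw [mem_filter] at hi hj
    rcases lt_trichotomy i j with h1 | h1 | h1
    · exact absurd h.symm (hj.2 i h1)
    · exact h1
    · exact absurd h (hi.2 j h1)
  · intro x hx
    obtain ⟨i, -, hi⟩ := mem_image.1 hx
    have hne : (univ.filter fun i => t i = x).Nonempty := ⟨i, mem_filter.2 ⟨mem_univ _, hi⟩⟩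
    refine ⟨(univ.filter fun i => t i = x).min' hne, ?_, ?_⟩
    · rw [mem_filter]
      refine ⟨mem_univ _, fun j hj h => ?_⟩
      have h1 := min'_mem _ hne
      rw [mem_filter] at h1
      have h2 := min'_le (univ.filter fun i => t i = x) j (mem_filter.2 ⟨mem_univ _, by rw [← h, h1.2]⟩)
      exact absurd (lt_of_lt_of_le hj h2) (lt_irrefl _)
    · have h1 := min'_mem _ hne
      rw [mem_filter] at h1
      exact h1.2

lemma card_avoid {k : ℕ} (t : Fin k → V) :
    (univ.filter fun v => ∀ i, t i ≠ v).card = Fintype.card V - cls (fun i j => t i = t j) := by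
  rw [cls_eq]
  have : (univ.filter fun v => ∀ i, t i ≠ v) = (univ.image t)ᶜ := by
    ext v
    simp
  rw [this, card_compl]

/-- **Kelly's lemma** for sums over the `k`-tuples of vertices of functions of the induced pattern -/
theorem kelly {G H : SimpleGraph V} {π : V → Equiv.Perm V} (hH : Hypo G H π) {k : ℕ} (hk : k < Fintype.card V)
    (φ : (Fin k → Fin k → Prop) → (Fin k → Fin k → Prop) → ℝ) :
    ∑ t : Fin k → V, φ (fun i j => G.Adj (t i) (t j)) (fun i j => t i = t j) =
      ∑ t : Fin k → V, φ (fun i j => H.Adj (t i) (t j)) (fun i j => t i = t j) := by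
  set n := Fintype.card V with hn
  let ψ : (Fin k → Fin k → Prop) → (Fin k → Fin k → Prop) → ℝ := fun A E => φ A E / ((n - cls E : ℕ) : ℝ)
  have key : ∀ K : SimpleGraph V, ∑ t : Fin k → V, φ (fun i j => K.Adj (t i) (t j)) (fun i j => t i = t j) =
      ∑ v : V, ∑ t : Fin k → V, if (∀ i, t i ≠ v) then
        ψ (fun i j => K.Adj (t i) (t j)) (fun i j => t i = t j) else 0 := by
    intro K
    rw [sum_comm]
    refine sum_congr rfl fun t _ => ?_
    rw [← sum_filter, sum_const, card_avoid, nsmul_eq_mul]
    have h1 : cls (fun i j => t i = t j) < n := lt_of_le_of_lt (cls_le _) hk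
    have h2 : ((n - cls (fun i j => t i = t j) : ℕ) : ℝ) ≠ 0 := by
      rw [Nat.cast_ne_zero]; omega
    rw [mul_div_cancel₀ _ h2]
  rw [key G, key H]
  refine sum_congr rfl fun v _ => ?_
  refine Fintype.sum_equiv (Equiv.arrowCongr (Equiv.refl _) (π v)) _ _ fun t => ?_
  have e : ∀ i, (Equiv.arrowCongr (Equiv.refl (Fin k)) (π v)) t i = π v (t i) := fun i => rfl
  simp only [e]
  have h1 : (∀ i, π v (t i) ≠ v) ↔ ∀ i, t i ≠ v := by
    refine forall_congr' fun i => ?_
    rw [not_iff_not]
    constructor
    · intro h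
      exact (π v).injective (by rw [h, hH.fix])
    · intro h
      rw [h, hH.fix]
  by_cases h : ∀ i, t i ≠ v
  · rw [if_pos h, if_pos (h1.2 h)]
    congr 1
    · funext i j
      exact propext (hH.adj v _ _ (h i) (h j)).symm
    · funext i j
      exact propext (π v).injective.eq_iff.symm
  · rw [if_neg h, if_neg (fun h2 => h (h1.1 h2))]

end Pool.Agent.H15.LE
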