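import Pool.Agent.H15.LE.Spec
import Pool.Agent.H15.LE.Bilin

/-! Graphs with at most three Laplacian eigenvalues. -/

set_option autoImplicit false

namespace Pool.Agent.H15.LE

open Finset Classical Matrix

variable {V : Type} [Fintype V]

omit [Fintype V] in
lemma adj_iv (G : SimpleGraph V) (x y : V) : G.adjMatrix ℝ x y = iv (G.Adj x y) := by
  rw [SimpleGraph.adjMatrix_apply]
  rfl

lemma deg_dg (G : SimpleGraph V) (x : V) : G.degree x = dg G x := by
  rw [dg, ← SimpleGraph.card_neighborFinset_eq_degree]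
  congr 1
  ext z
  simp

lemma lap_apply (G : SimpleGraph V) (x y : V) :
    G.lapMatrix ℝ x y = (if x = y then (dg G x : ℝ) else 0) - iv (G.Adj x y) := by
  rw [SimpleGraph.lapMatrix, SimpleGraph.degMatrix, Matrix.sub_apply, Matrix.diagonal_apply, adj_iv, deg_dg]

lemma lap_sq (G : SimpleGraph V) {x y : V} (hxy : x ≠ y) :
    (G.lapMatrix ℝ * G.lapMatrix ℝ) x y = cg G x y - ((dg G x : ℝ) + dg G y) * iv (G.Adj x y) := by
  rw [Matrix.mul_apply]
  simp_rw [lap_apply, sub_mul, mul_sub, sum_sub_distrib]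
  have e1 : ∑ w, (if x = w then (dg G x : ℝ) else 0) * (if w = y then (dg G w : ℝ) else 0) = 0 := by
    refine sum_eq_zero fun w _ => ?_
    by_cases h1 : x = w
    · rw [if_neg (fun h2 => hxy (h1.trans h2)), mul_zero]
    · rw [if_neg h1, zero_mul]
  have e2 : ∑ w, (if x = w then (dg G x : ℝ) else 0) * iv (G.Adj w y) = dg G x * iv (G.Adj x y) := by
    rw [sum_eq_single x]
    · rw [if_pos rfl]
    · intro w _ hw
      rw [if_neg hw.symm, zero_mul]
    · intro h; exact absurd (mem_univ _) h
  have e3 : ∑ w, iv (G.Adj x w) * (if w = y then (dg G w : ℝ) else 0) = dg G y * iv (G.Adj x y) := by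
    rw [sum_eq_single y]
    · rw [if_pos rfl, mul_comm]
    · intro w _ hw
      rw [if_neg hw, mul_zero]
    · intro h; exact absurd (mem_univ _) h
  have e4 : ∑ w, iv (G.Adj x w) * iv (G.Adj w y) = cg G x y := by
    rw [cg_sum]
    refine sum_congr rfl fun w _ => ?_
    rw [G.adj_comm w y]
  rw [e1, e2, e3, e4]
  ring

lemma lap_herm (G : SimpleGraph V) : (G.lapMatrix ℝ).IsHermitian := by
  rw [Matrix.IsHermitian, Matrix.conjTranspose_eq_transpose_of_trivial]
  exact SimpleGraph.isSymm_lapMatrix ℝ G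

lemma lap_zero [Nonempty V] (G : SimpleGraph V) : (0 : ℝ) ∈ spectrum ℝ (G.lapMatrix ℝ) := by
  rw [spectrum.mem_iff, map_zero, zero_sub]
  intro hu
  have hu' : IsUnit (G.lapMatrix ℝ) := by simpa using hu.neg
  have h1 := G.lapMatrix_mulVec_const_eq_zero (R := ℝ)
  obtain ⟨U, hU⟩ := hu'
  have h2 : (U⁻¹.1 : Matrix V V ℝ) *ᵥ (G.lapMatrix ℝ *ᵥ (fun _ => 1)) = fun _ => 1 := by
    rw [← hU, mulVec_mulVec, ← Units.val_mul, inv_mul_cancel, Units.val_one, one_mulVec]
  rw [h1, mulVec_zero] at h2
  obtain ⟨v⟩ := ‹Nonempty V›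
  have := congrFun h2 v
  simp at this

/-- connected graphs with at most three Laplacian eigenvalues satisfy a bilinear identity -/
theorem lap_bil (G : SimpleGraph V) (hc : G.Connected) (h3 : (spectrum ℝ (G.lapMatrix ℝ)).ncard ≤ 3) :
    ∃ s c : ℝ, ∀ x y, x ≠ y → (cg G x y : ℝ) =
      bil (fun a => if a then c - s else c) (fun a => if a then 1 else 0) (fun _ => 0) (ad G x y) (dg G x) (dg G y) := by
  have hne := hc.nonempty
  obtain ⟨a, b, hab⟩ := three_eig (G.lapMatrix ℝ) (lap_herm G) (lap_zero G) h3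
  set L := G.lapMatrix ℝ with hL
  set M := (L - a • (1 : Matrix V V ℝ)) * (L - b • (1 : Matrix V V ℝ)) with hM
  have hMexp : M = L * L - (a + b) • L + (a * b) • (1 : Matrix V V ℝ) := by
    rw [hM, sub_mul, mul_sub, mul_sub, Matrix.mul_smul, Matrix.mul_one, Matrix.smul_mul, Matrix.one_mul,
      Matrix.smul_mul, Matrix.one_mul, smul_smul, add_smul]
    abel
  have hsymL : Lᵀ = L := SimpleGraph.isSymm_lapMatrix ℝ G
  have hsym : ∀ x y, M x y = M y x := by
    intro x y
    have : Mᵀ = M := by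
      rw [hMexp, transpose_add, transpose_sub, transpose_mul, transpose_smul, transpose_smul, hsymL, transpose_one]
    calc M x y = Mᵀ y x := rfl
      _ = M y x := by rw [this]
  have hcol : ∀ j x y, M x j = M y j := by
    intro j x y
    have h1 : L *ᵥ (fun i => M i j) = 0 := by
      ext i
      have := congrFun (congrFun hab i) j
      rw [Matrix.mul_apply] at this
      exact this
    exact (G.lapMatrix_mulVec_eq_zero_iff_forall_reachable.1 h1) x y (hc.preconnected x y)
  obtain ⟨v⟩ := hne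
  refine ⟨a + b, M v v, fun x y hxy => ?_⟩
  have h1 : M x y = M v v := by
    rw [hcol y x v, hsym, hcol v y v]
  have h2 : M x y = cg G x y - ((dg G x : ℝ) + dg G y) * iv (G.Adj x y) + (a + b) * iv (G.Adj x y) := by
    rw [hMexp, Matrix.add_apply, Matrix.sub_apply, lap_sq G hxy, Matrix.smul_apply, Matrix.smul_apply, hL, lap_apply,
      Matrix.one_apply_ne hxy, if_neg hxy]
    simp only [smul_eq_mul]
    ring
  rw [h1] at h2
  unfold bil ad
  by_cases h : G.Adj x y
  · have e1 : iv (G.Adj x y) = 1 := by unfold iv; rw [if_pos h]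
    rw [e1] at h2
    rw [decide_eq_true h]
    simp only [if_true]
    linarith
  · have e1 : iv (G.Adj x y) = 0 := by unfold iv; rw [if_neg h]
    rw [e1] at h2
    rw [decide_eq_false h]
    simp only [Bool.false_eq_true, if_false]
    linarith

end Pool.Agent.H15.LE
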