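import Mathlib

/-! Symmetric matrices with at most three eigenvalues. -/

set_option autoImplicit false

namespace Pool.Agent.H15.LE

open Matrix

variable {V : Type} [Fintype V] [DecidableEq V]

/-- a symmetric matrix with at most three eigenvalues, one of which is `0` -/
lemma three_eig (A : Matrix V V ℝ) (hA : A.IsHermitian) (h0 : (0 : ℝ) ∈ spectrum ℝ A)
    (h3 : (spectrum ℝ A).ncard ≤ 3) : ∃ a b : ℝ, A * ((A - a • (1 : Matrix V V ℝ)) * (A - b • (1 : Matrix V V ℝ))) = 0 := by
  have hfin : (spectrum ℝ A).Finite := by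
    have : (spectrum ℝ A) = Set.range hA.eigenvalues := hA.spectrum_real_eq_range_eigenvalues
    rw [this]
    exact Set.finite_range _
  obtain ⟨a, b, hab⟩ : ∃ a b : ℝ, spectrum ℝ A ⊆ {0, a, b} := by
    have h1 : (spectrum ℝ A \ {0}).ncard ≤ 2 := by
      have := Set.ncard_diff_singleton_of_mem h0
      omega
    rcases Set.eq_empty_or_nonempty (spectrum ℝ A \ {0}) with h2 | ⟨a, ha⟩
    · exact ⟨0, 0, fun x hx => by
        by_contra h4
        have : x ∈ spectrum ℝ A \ {0} := ⟨hx, fun h5 => h4 (by rw [Set.mem_singleton_iff] at h5; rw [h5]; simp)⟩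
        rw [h2] at this
        exact this⟩
    · have h5 : ((spectrum ℝ A \ {0}) \ {a}).ncard ≤ 1 := by
        have := Set.ncard_diff_singleton_of_mem ha
        omega
      have hf : ((spectrum ℝ A \ {0}) \ {a}).Finite := (hfin.diff).diff
      rcases Set.eq_empty_or_nonempty ((spectrum ℝ A \ {0}) \ {a}) with h2 | ⟨b, hb⟩
      · exact ⟨a, a, fun x hx => by
          by_contra h4
          simp only [Set.mem_insert_iff, Set.mem_singleton_iff, not_or] at h4
          have : x ∈ (spectrum ℝ A \ {0}) \ {a} := ⟨⟨hx, h4.1⟩, h4.2.1⟩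
          rw [h2] at this
          exact this⟩
      · refine ⟨a, b, fun x hx => ?_⟩
        by_contra h4
        simp only [Set.mem_insert_iff, Set.mem_singleton_iff, not_or] at h4
        have h6 : x ∈ (spectrum ℝ A \ {0}) \ {a} := ⟨⟨hx, h4.1⟩, h4.2.1⟩
        have h7 := (Set.ncard_le_one hf).1 h5 x h6 b hb
        exact h4.2.2 h7
  refine ⟨a, b, ?_⟩
  have key : ∀ i, (A * ((A - a • (1 : Matrix V V ℝ)) * (A - b • (1 : Matrix V V ℝ)))) *ᵥ
      (⇑(hA.eigenvectorBasis i)) = 0 := by
    intro i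
    have e1 := hA.mulVec_eigenvectorBasis i
    have h4 : hA.eigenvalues i ∈ ({0, a, b} : Set ℝ) := by
      apply hab
      rw [hA.spectrum_real_eq_range_eigenvalues]
      exact ⟨i, rfl⟩
    set v : V → ℝ := ⇑(hA.eigenvectorBasis i) with hv
    set μ := hA.eigenvalues i with hμ
    have e2 : ∀ s : ℝ, (A - s • (1 : Matrix V V ℝ)) *ᵥ v = (μ - s) • v := by
      intro s
      rw [sub_mulVec, smul_mulVec, one_mulVec, e1, sub_smul]
    rw [← mulVec_mulVec, ← mulVec_mulVec, e2, mulVec_smul, e2, mulVec_smul, mulVec_smul, e1]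
    simp only [Set.mem_insert_iff, Set.mem_singleton_iff] at h4
    rcases h4 with h4 | h4 | h4
    · rw [h4]; simp
    · rw [h4]; simp
    · rw [h4]; simp
  -- the eigenvectors span
  apply Matrix.ext_of_mulVec_single
  intro j
  set M := A * ((A - a • (1 : Matrix V V ℝ)) * (A - b • (1 : Matrix V V ℝ))) with hM
  have hx : ∀ x : EuclideanSpace ℝ V, M *ᵥ ⇑x = 0 := by
    intro x
    rw [← hA.eigenvectorBasis.sum_repr x]
    have : (⇑(∑ i, (hA.eigenvectorBasis.repr x) i • hA.eigenvectorBasis i) : V → ℝ) =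
        ∑ i, (hA.eigenvectorBasis.repr x) i • (⇑(hA.eigenvectorBasis i) : V → ℝ) := by
      ext k
      simp [Finset.sum_apply]
    rw [this, mulVec_sum]
    refine Finset.sum_eq_zero fun i _ => ?_
    rw [mulVec_smul, key, smul_zero]
  rw [zero_mulVec]
  exact hx (WithLp.toLp 2 (Pi.single j 1))

end Pool.Agent.H15.LE
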